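import Pool.Agent.L7h65.LS.Main
import Pool.Agent.H612.PatOf

/-!
# Long/short edge realizability on complete bipartite graphs is `∃ℝ`-complete

The definitions (instances, complete bipartite graphs, non-degenerate straight-line drawings,
realizability) are in `Pool.Agent.L7h65.LS.Defs`; polynomial time, reductions and the class `∃ℝ`
are those of `Pool.Agent.NPC.Defs` and `Pool.Agent.ER.Defs`.

Hardness: the reduction is from the realizability of strict sign matrices by points and lines of
the plane, which is `∃ℝ`-hard (library `Pool.Agent.H625R2`, `Pool.Agent.H612`).  A row is one
vertex `a`, a column is a pair of vertices `b`, `b'` of the other class; for a positive entry `ab`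
is short and `ab'` is long, for a negative entry it is the other way round.  In a realization the
point `a` is closer to `b` than to `b'` if the entry is positive, so the perpendicular bisector of
`b` and `b'` realizes the column.  Conversely, if points and lines realize the matrix, shrink the
points to a tiny neighbourhood of the origin and replace the two sides of a line by the two unit
disks which are tangent to it there; all inequalities are strict, so that a small perturbation
makes the drawing non-degenerate.
-/

namespace Pool.Agent.Results.MP_24b35c_lc.CompleteBipartite

open Pool.Agent.NPC Pool.Agent.NPC.ER Pool.Agent.NPC.ER.Pat Pool.Agent.NPC.L7h65.LS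

theorem isPatOf : IsPatOf Sgn.patOf where
  poly := Sgn.poly_patOf Poly.id
  wf := Sgn.patOf_wf
  sound := fun _ h => Sgn.patOf_sound h
  complete := fun _ h => Sgn.patOf_complete h

/-- Long/short edge realizability restricted to complete bipartite graphs is `∃ℝ`-complete under
polynomial-time many-one reductions. -/
theorem result :
    ERComplete (lang fun G : Inst => IsInst G ∧ IsCompleteBipartite G ∧ Realizable G) :=
  ⟨ls_mem, ls_hard isPatOf⟩

end Pool.Agent.Results.MP_24b35c_lc.CompleteBipartite
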